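import Mathlib

/-!
Helper file: a square wave moving along the direction `(1, 1)`.
-/

set_option autoImplicit false
open MeasureTheory Filter Topology

namespace Pool.Agent.Helper26K1.Gas

/-- A square wave of values `1/2` and `-1/2`, of antiperiod one. -/
noncomputable def sq (y : ℝ) : ℝ := if Even ⌊y⌋ then 1 / 2 else -(1 / 2)

lemma sq_add_one (y : ℝ) : sq (y + 1) = - sq y := by
  unfold sq
  rw [Int.floor_add_one]
  by_cases h : Even ⌊y⌋
  · have : ¬ Even (⌊y⌋ + 1) := by
      rw [Int.even_add_one]; simpa using h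
    rw [if_pos h, if_neg this]
  · have : Even (⌊y⌋ + 1) := by
      rw [Int.even_add_one]; simpa using h
    rw [if_neg h, if_pos this]; norm_num

lemma sq_sq (y : ℝ) : sq y * sq y = 1 / 4 := by
  unfold sq
  split_ifs <;> norm_num

lemma sq_abs (y : ℝ) : |sq y| = 1 / 2 := by
  unfold sq
  split_ifs
  · rw [abs_of_pos] <;> norm_num
  · rw [abs_of_neg] <;> norm_num

lemma sq_cases (y : ℝ) : sq y = 1 / 2 ∨ sq y = -(1 / 2) := by
  unfold sq
  split_ifs <;> simp

lemma sq_meas : Measurable sq := by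
  unfold sq
  have h : MeasurableSet {y : ℝ | Even ⌊y⌋} :=
    Int.measurable_floor (MeasurableSet.of_discrete (s := {n : ℤ | Even n}))
  exact Measurable.ite h measurable_const measurable_const

/-- The moving square wave. -/
noncomputable def w (n : ℕ) (z : ℝ × ℝ) : ℝ := sq (((n : ℝ) + 1) * (z.1 - z.2))

lemma w_meas (n : ℕ) : Measurable (w n) := by
  unfold w
  exact sq_meas.comp (by fun_prop)

lemma w_abs (n : ℕ) (z : ℝ × ℝ) : |w n z| = 1 / 2 := sq_abs _

lemma w_mul (n : ℕ) (z : ℝ × ℝ) : w n z * w n z = 1 / 4 := sq_sq _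

lemma w_cases (n : ℕ) (z : ℝ × ℝ) : w n z = 1 / 2 ∨ w n z = -(1 / 2) := sq_cases _

lemma w_shift (n : ℕ) (z : ℝ × ℝ) (h : ℝ) : w n (z + h • ((1, 1) : ℝ × ℝ)) = w n z := by
  unfold w
  congr 1
  simp

lemma w_anti (n : ℕ) (z : ℝ × ℝ) : w n (z + (1 / ((n : ℝ) + 1), 0)) = - w n z := by
  unfold w
  rw [← sq_add_one]
  congr 1
  have : (n : ℝ) + 1 ≠ 0 := by positivity
  simp only [Prod.fst_add, Prod.snd_add]
  field_simp
  ring

/-- A bounded measurable function that is invariant along `u` has zero distributional derivative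
along `u`. -/
lemma int_zero (f : ℝ × ℝ → ℝ) (hf : Measurable f) (C : ℝ) (hC : ∀ z, |f z| ≤ C)
    (u : ℝ × ℝ) (hu : ∀ z (h : ℝ), f (z + h • u) = f z)
    (φ : ℝ × ℝ → ℝ) (hφ : ContDiff ℝ ((⊤ : ℕ∞) : WithTop ℕ∞) φ) (hc : HasCompactSupport φ) :
    Integrable (fun z => f z * fderiv ℝ φ z u) ∧ ∫ z, f z * fderiv ℝ φ z u = 0 := by
  have hd : Continuous (fun z => fderiv ℝ φ z u) :=
    (hφ.continuous_fderiv (by simp)).clm_apply continuous_const
  have hdc : HasCompactSupport (fun z => fderiv ℝ φ z u) := by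
    have := hc.fderiv (𝕜 := ℝ)
    exact this.comp_left (g := fun L : ℝ × ℝ →L[ℝ] ℝ => L u) (by simp)
  have hI : Integrable (fun z => f z * fderiv ℝ φ z u) := by
    refine Integrable.bdd_mul (c := C) (hd.integrable_of_hasCompactSupport hdc)
      hf.aestronglyMeasurable ?_
    exact Eventually.of_forall hC
  refine ⟨hI, ?_⟩
  have h := integral_bilinear_hasLineDerivAt_right_eq_neg_left_of_integrable
    (μ := (volume : Measure (ℝ × ℝ))) (f := f) (f' := fun _ => 0) (g := φ)
    (g' := fun z => fderiv ℝ φ z u) (v := u) (B := ContinuousLinearMap.mul ℝ ℝ)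
    (by simp) (by simpa using hI)
    (by
      simp only [ContinuousLinearMap.mul_apply']
      refine Integrable.bdd_mul (c := C)
        (hφ.continuous.integrable_of_hasCompactSupport hc)
        hf.aestronglyMeasurable ?_
      exact Eventually.of_forall hC)
    (by
      intro z _
      unfold HasLineDerivAt
      have : (fun t : ℝ => f (z + t • u)) = fun _ => f z := by
        funext t; exact hu z t
      rw [this]
      exact hasDerivAt_const _ _)
    (by
      intro z _
      have := (hφ.differentiable (by simp) z).hasFDerivAt.hasLineDerivAt u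
      simpa using this)
  simpa using h

/-- Translations act continuously on `L¹`. -/
lemma trans_l1 (G : ℝ × ℝ → ℝ) (hG : Integrable G) (h : ℕ → ℝ × ℝ)
    (hh : Tendsto h atTop (𝓝 0)) :
    Tendsto (fun n => ∫ z, |G (h n + z) - G z|) atTop (𝓝 0) := by
  haveI : Fact ((1 : ENNReal) ≠ ⊤) := ⟨ENNReal.one_ne_top⟩
  have key : Tendsto (fun n => (DomAddAct.mk (h n)) +ᵥ (hG.toL1 G : Lp ℝ 1 (volume : Measure (ℝ × ℝ))))
      atTop (𝓝 (hG.toL1 G)) := by
    have h1 : Tendsto (fun n => DomAddAct.mk (h n)) atTop (𝓝 (0 : (ℝ × ℝ)ᵈᵃᵃ)) := by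
      have := (DomAddAct.continuous_mk (M := ℝ × ℝ)).tendsto 0
      exact this.comp hh
    have h2 := h1.vadd (tendsto_const_nhds (x := (hG.toL1 G : Lp ℝ 1 (volume : Measure (ℝ × ℝ)))))
    simpa using h2
  have k2 := tendsto_iff_norm_sub_tendsto_zero.1 key
  refine k2.congr ?_
  intro n
  rw [L1.norm_eq_integral_norm]
  refine integral_congr_ae ?_
  have e1 := Lp.coeFn_sub ((DomAddAct.mk (h n)) +ᵥ (hG.toL1 G : Lp ℝ 1 (volume : Measure (ℝ × ℝ))))
    (hG.toL1 G)
  have e2 : (((DomAddAct.mk (h n)) +ᵥ (hG.toL1 G : Lp ℝ 1 (volume : Measure (ℝ × ℝ))) :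
      Lp ℝ 1 (volume : Measure (ℝ × ℝ))) : ℝ × ℝ → ℝ) =ᵐ[volume] fun z => G (h n + z) := by
    have a1 := DomAddAct.vadd_Lp_ae_eq (DomAddAct.mk (h n))
      (hG.toL1 G : Lp ℝ 1 (volume : Measure (ℝ × ℝ)))
    refine a1.trans ?_
    have a2 := hG.coeFn_toL1
    have a3 : MeasurePreserving (fun z : ℝ × ℝ => h n + z) volume volume :=
      measurePreserving_add_left volume (h n)
    exact a3.quasiMeasurePreserving.ae_eq_comp a2
  have e3 := hG.coeFn_toL1
  filter_upwards [e1, e2, e3] with z h1 h2 h3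
  rw [h1, Pi.sub_apply, h2, h3, Real.norm_eq_abs]

/-- The moving square waves tend weakly to zero. -/
lemma w_weak (G : ℝ × ℝ → ℝ) (hG : Integrable G) :
    Tendsto (fun n => ∫ z, w n z * G z) atTop (𝓝 0) := by
  have hi : ∀ n, ∀ g : ℝ × ℝ → ℝ, Integrable g → Integrable (fun z => w n z * g z) := by
    intro n g hg
    refine Integrable.bdd_mul (c := 1 / 2) hg (w_meas n).aestronglyMeasurable ?_
    exact Eventually.of_forall fun z => by rw [Real.norm_eq_abs, w_abs]
  have hn : Tendsto (fun n : ℕ => ((1 / ((n : ℝ) + 1), 0) : ℝ × ℝ)) atTop (𝓝 0) := by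
    have h1 : Tendsto (fun n : ℕ => (1 / ((n : ℝ) + 1) : ℝ)) atTop (𝓝 0) :=
      tendsto_one_div_add_atTop_nhds_zero_nat
    exact h1.prodMk_nhds (tendsto_const_nhds (x := (0 : ℝ)) (f := atTop))
  have ht := trans_l1 G hG (fun n => (1 / ((n : ℝ) + 1), 0)) hn
  refine squeeze_zero_norm
    (a := fun n : ℕ => (1 / 4) * ∫ z, |G ((1 / ((n : ℝ) + 1), 0) + z) - G z|) ?_ ?_
  · intro n
    have e1 : ∫ z, w n z * G z = - ∫ z, w n z * G ((1 / ((n : ℝ) + 1), 0) + z) := by
      rw [← integral_neg]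
      have := integral_add_left_eq_self (μ := (volume : Measure (ℝ × ℝ)))
        (fun z => w n z * G z) (1 / ((n : ℝ) + 1), 0)
      rw [← this]
      refine integral_congr_ae (Eventually.of_forall fun z => ?_)
      simp only
      rw [add_comm ((1 / ((n : ℝ) + 1), 0) : ℝ × ℝ) z, w_anti]
      ring
    have hGs : Integrable (fun z => G ((1 / ((n : ℝ) + 1), 0) + z)) :=
      hG.comp_add_left _
    have e2 : ∫ z, w n z * G z
        = -(1 / 2) * ∫ z, w n z * (G ((1 / ((n : ℝ) + 1), 0) + z) - G z) := by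
      have : ∫ z, w n z * (G ((1 / ((n : ℝ) + 1), 0) + z) - G z)
          = (∫ z, w n z * G ((1 / ((n : ℝ) + 1), 0) + z)) - ∫ z, w n z * G z := by
        rw [← integral_sub (hi n _ hGs) (hi n _ hG)]
        refine integral_congr_ae (Eventually.of_forall fun z => ?_)
        simp only
        ring
      rw [this]
      linarith
    rw [e2, norm_mul, Real.norm_eq_abs]
    have e3 : |(-(1 / 2) : ℝ)| = 1 / 2 := by rw [abs_of_neg] <;> norm_num
    rw [e3]
    have e4 : ‖∫ z, w n z * (G ((1 / ((n : ℝ) + 1), 0) + z) - G z)‖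
        ≤ ∫ z, (1 / 2) * |G ((1 / ((n : ℝ) + 1), 0) + z) - G z| := by
      refine (norm_integral_le_integral_norm _).trans (le_of_eq ?_)
      refine integral_congr_ae (Eventually.of_forall fun z => ?_)
      simp only
      rw [norm_mul, Real.norm_eq_abs, w_abs, Real.norm_eq_abs]
    rw [integral_const_mul] at e4
    linarith
  · have := ht.const_mul (1 / 4)
    simpa using this

end Pool.Agent.Helper26K1.Gas
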